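import Pool.Agent.H3.SE.BCN

set_option autoImplicit false

/-!
# [H3 SE BBD] The bound for the number of the bad triples
-/

namespace Pool.Agent.H3.SE

open Polynomial
open Pool.Agent.H94.PC
open Pool.Agent.H94.PS
open Pool.Agent.H74.ST
open Pool.Agent.H74.TL
open Pool.Agent.H3

variable {F : Type} [Field F] [Finite F] {d e : ℕ}

/-- the bound of the number of the tiny primes of a typical triple -/
noncomputable def LB (d : ℕ) : ℝ := 2 * Real.log d ^ (3 / 4 : ℝ)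

private theorem LL_natDegree {U : Finset F[X]} (hU : IsP U) {T : ℕ}
    (h : ∀ P ∈ U, P.natDegree ≤ T) : (LL U).natDegree ≤ U.card * T := by
  unfold LL
  rw [natDegree_prod_of_monic _ _ fun P hP => (hU P hP).1, ← smul_eq_mul]
  exact Finset.sum_le_card_nsmul _ _ _ h

private theorem LL_not_sq {U : Finset F[X]} (hU : IsP U) (hne : U.Nonempty) :
    ¬ IsSquare (LL U) := by
  rintro ⟨a, ha⟩
  obtain ⟨P, hP⟩ := hne
  have hs : Squarefree (LL U) := squarefree_prod_irr U hU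
  have h1 : P ∣ a * a := by
    rw [← ha]
    exact Finset.dvd_prod_of_mem (fun P => P) hP
  have hp := (hU P hP).2.prime
  have h2 : P ∣ a := by
    rcases hp.dvd_or_dvd h1 with h | h <;> exact h
  exact (hU P hP).2.not_isUnit (hs P (ha ▸ mul_dvd_mul h2 h2))

open Classical in
/-- the data of the small characters -/
noncomputable def UU (F : Type) [Field F] [Finite F] (d : ℕ) : Finset (Finset F[X]) :=
  (PP F (thr d - 1)).powerset.filter fun U => U.Nonempty ∧ (U.card : ℝ) ≤ LB d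

open Classical in
theorem bad_sub (hd : Odd d) (ht : 1 ≤ thr d) : (SC.Tf F d e).filter (fun Y => SB.Bad d Y) ⊆
    (Finset.univ : Finset (Fin 3)).biUnion fun i => (({1, -1} : Finset ℝ)).biUnion fun e0 =>
      (UU F d).biUnion fun U => BT d e i U e0 := by
  intro Y hY
  rw [Finset.mem_filter, SC.mem_Tf] at hY
  obtain ⟨⟨hF, hT⟩, hB⟩ := hY
  obtain ⟨i, U, hne, h1, h2, e0, he0, hch⟩ := bad_char hF.1 hd hB
  rw [Finset.mem_biUnion]
  refine ⟨i, Finset.mem_univ _, ?_⟩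
  rw [Finset.mem_biUnion]
  refine ⟨e0, ?_, ?_⟩
  · rw [Finset.mem_insert, Finset.mem_singleton]
    exact he0
  rw [Finset.mem_biUnion]
  refine ⟨U, ?_, Finset.mem_filter.2 ⟨mem_Fam.2 hF, h1, hch⟩⟩
  unfold UU
  rw [Finset.mem_filter, Finset.mem_powerset]
  refine ⟨?_, hne, ?_⟩
  · intro P hP
    rw [mem_PP]
    have h3 : P.Monic ∧ Irreducible P := by
      rcases h1 P hP with h | h
      · exact ⟨(mem_pf' h).1, (mem_pf' h).2.1⟩
      · exact ⟨(mem_pf' h).1, (mem_pf' h).2.1⟩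
    have h4 := h2 P hP
    exact ⟨h3.1, h3.2, by omega⟩
  · have h3 : U.card ≤ omt (thr d) (Y (i + 1)) + omt (thr d) (Y (i + 2)) := by
      unfold omt
      refine le_trans (Finset.card_le_card ?_) (Finset.card_union_le _ _)
      intro P hP
      rw [Finset.mem_union, Finset.mem_filter, Finset.mem_filter]
      rcases h1 P hP with h | h
      · exact Or.inl ⟨h, h2 P hP⟩
      · exact Or.inr ⟨h, h2 P hP⟩
    have h4 := (hT (i + 1)).2
    have h5 := (hT (i + 2)).2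
    have h6 : (U.card : ℝ) ≤ (omt (thr d) (Y (i + 1)) : ℝ) + (omt (thr d) (Y (i + 2)) : ℝ) := by
      exact_mod_cast h3
    unfold LB
    linarith

/-- the bound for one set of primes -/
private theorem one_U (h2 : (2 : F) ≠ 0) (hd : 1 ≤ d) (hT : 1 ≤ thr d - 1)
    (hL : LB d * ((thr d - 1 : ℕ) : ℝ) ≤ d) (i : Fin 3) {e0 : ℝ} (he0 : e0 = 1 ∨ e0 = -1)
    {U : Finset F[X]} (hU : U ∈ UU F d) : ((BT (F := F) d e i U e0).card : ℝ) ≤
      (Nat.card F : ℝ) ^ (2 * d + 2) *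
        (3 * ((thr d - 1 : ℕ) : ℝ) * Real.sqrt (2 * (LB d * ((thr d - 1 : ℕ) : ℝ)) / d)) *
        (2 ^ U.card * iv (LL U)) := by
  set T : ℕ := thr d - 1 with hTd
  unfold UU at hU
  rw [Finset.mem_filter, Finset.mem_powerset] at hU
  obtain ⟨hU1, hU2, hU3⟩ := hU
  have hUP : IsP U := (isP_PP T).mono hU1
  have hdeg : ((LL U).natDegree : ℝ) ≤ LB d * (T : ℝ) := by
    have h3 : (LL U).natDegree ≤ U.card * T :=
      LL_natDegree hUP fun P hP => (mem_PP.1 (hU1 hP)).2.2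
    calc ((LL U).natDegree : ℝ) ≤ (U.card : ℝ) * (T : ℝ) := by exact_mod_cast h3
      _ ≤ LB d * (T : ℝ) := mul_le_mul_of_nonneg_right hU3 (Nat.cast_nonneg _)
  have hn : (LL U).natDegree ≤ d + 1 := by
    have h3 : ((LL U).natDegree : ℝ) ≤ (d : ℝ) := hdeg.trans hL
    have h4 : (LL U).natDegree ≤ d := by exact_mod_cast h3
    omega
  have h1 := card_BT (e := e) hUP hn (by omega) i e0
  rw [← hTd] at h1
  refine h1.trans ?_
  have h3 := Gn_card_le (n := d) h2 (LL_monic hUP) (LL_not_sq hUP hU2) he0 hT hd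
  have hd0 : (0 : ℝ) < d := by exact_mod_cast hd
  have h4 : Real.sqrt (2 * (LL U).natDegree / d) ≤ Real.sqrt (2 * (LB d * (T : ℝ)) / d) := by
    refine Real.sqrt_le_sqrt ?_
    refine div_le_div_of_nonneg_right ?_ hd0.le
    linarith
  have hiv := iv_nonneg (LL U)
  have h5 : ((Gn (LL U) e0 T d).card : ℝ) ≤ (Nat.card F : ℝ) ^ d *
      (3 * (T : ℝ) * Real.sqrt (2 * (LB d * (T : ℝ)) / d)) := by
    refine h3.trans ?_
    refine mul_le_mul_of_nonneg_left ?_ (by positivity)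
    exact mul_le_mul_of_nonneg_left h4 (by positivity)
  calc (Nat.card F : ℝ) * (Gn (LL U) e0 T d).card *
        (2 ^ U.card * ((Nat.card F : ℝ) ^ (d + 1) * iv (LL U)))
      ≤ (Nat.card F : ℝ) * ((Nat.card F : ℝ) ^ d *
        (3 * (T : ℝ) * Real.sqrt (2 * (LB d * (T : ℝ)) / d))) *
        (2 ^ U.card * ((Nat.card F : ℝ) ^ (d + 1) * iv (LL U))) := by
        refine mul_le_mul_of_nonneg_right ?_ (by positivity)
        exact mul_le_mul_of_nonneg_left h5 (by positivity)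
    _ = _ := by
        rw [show 2 * d + 2 = 1 + d + (d + 1) by ring, pow_add, pow_add, pow_one]
        ring

private theorem sum_UU (hT : 1 ≤ thr d - 1) :
    ∑ U ∈ UU F d, (2 : ℝ) ^ U.card * iv (LL U) ≤ (3 * ((thr d - 1 : ℕ) : ℝ)) ^ 2 := by
  classical
  have h0 : ∑ U ∈ UU F d, (2 : ℝ) ^ U.card * iv (LL U) ≤
      ∑ U ∈ (PP F (thr d - 1)).powerset, (2 : ℝ) ^ U.card * iv (LL U) := by
    refine Finset.sum_le_sum_of_subset_of_nonneg (Finset.filter_subset _ _) fun U _ _ => ?_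
    have := iv_nonneg (LL U)
    positivity
  refine h0.trans ?_
  have h1 : ∀ U ∈ (PP F (thr d - 1)).powerset, (2 : ℝ) ^ U.card * iv (LL U) =
      ∏ P ∈ U, (((2 : ℕ) : ℝ) * iv P) := by
    intro U hU
    rw [iv_LL ((isP_PP _).mono (Finset.mem_powerset.1 hU)), Finset.prod_mul_distrib,
      Finset.prod_const]
    push_cast
    rfl
  rw [Finset.sum_congr rfl h1, ← Finset.prod_one_add]
  exact prod_PP_pow_le 2 hT

open Classical in
theorem bad_card (h2 : (2 : F) ≠ 0) (hd : Odd d) (hT : 1 ≤ thr d - 1)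
    (hL : LB d * ((thr d - 1 : ℕ) : ℝ) ≤ d) (e : ℕ) :
    (((SC.Tf F d e).filter fun Y => SB.Bad d Y).card : ℝ) ≤
      6 * ((Nat.card F : ℝ) ^ (2 * d + 2) *
        (3 * ((thr d - 1 : ℕ) : ℝ) * Real.sqrt (2 * (LB d * ((thr d - 1 : ℕ) : ℝ)) / d)) *
        (3 * ((thr d - 1 : ℕ) : ℝ)) ^ 2) := by
  set M : ℝ := (Nat.card F : ℝ) ^ (2 * d + 2) *
        (3 * ((thr d - 1 : ℕ) : ℝ) * Real.sqrt (2 * (LB d * ((thr d - 1 : ℕ) : ℝ)) / d)) with hM
  have hM0 : 0 ≤ M := by positivity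
  have hd1 : 1 ≤ d := hd.pos
  have h3 : ∀ i : Fin 3, ∀ e0 ∈ ({1, -1} : Finset ℝ),
      (((UU F d).biUnion fun U => BT d e i U e0).card : ℝ) ≤
        M * (3 * ((thr d - 1 : ℕ) : ℝ)) ^ 2 := by
    intro i e0 he0
    rw [Finset.mem_insert, Finset.mem_singleton] at he0
    calc (((UU F d).biUnion fun U => BT d e i U e0).card : ℝ)
        ≤ ∑ U ∈ UU F d, ((BT d e i U e0).card : ℝ) := by
          exact_mod_cast Finset.card_biUnion_le
      _ ≤ ∑ U ∈ UU F d, M * (2 ^ U.card * iv (LL U)) :=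
          Finset.sum_le_sum fun U hU => one_U h2 hd1 hT hL i he0 hU
      _ = M * ∑ U ∈ UU F d, (2 ^ U.card * iv (LL U)) := (Finset.mul_sum _ _ _).symm
      _ ≤ M * (3 * ((thr d - 1 : ℕ) : ℝ)) ^ 2 :=
          mul_le_mul_of_nonneg_left (sum_UU hT) hM0
  have h4 : ∀ i : Fin 3, (((({1, -1} : Finset ℝ)).biUnion fun e0 =>
      (UU F d).biUnion fun U => BT d e i U e0).card : ℝ) ≤
        2 * (M * (3 * ((thr d - 1 : ℕ) : ℝ)) ^ 2) := by
    intro i
    calc (((({1, -1} : Finset ℝ)).biUnion fun e0 =>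
        (UU F d).biUnion fun U => BT d e i U e0).card : ℝ)
        ≤ ∑ e0 ∈ ({1, -1} : Finset ℝ), (((UU F d).biUnion fun U => BT d e i U e0).card : ℝ) := by
          exact_mod_cast Finset.card_biUnion_le
      _ ≤ ∑ e0 ∈ ({1, -1} : Finset ℝ), M * (3 * ((thr d - 1 : ℕ) : ℝ)) ^ 2 :=
          Finset.sum_le_sum (h3 i)
      _ = 2 * (M * (3 * ((thr d - 1 : ℕ) : ℝ)) ^ 2) := by
          rw [Finset.sum_const, Finset.card_pair (by norm_num), nsmul_eq_mul]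
          push_cast
          rfl
  calc (((SC.Tf F d e).filter fun Y => SB.Bad d Y).card : ℝ)
      ≤ (((Finset.univ : Finset (Fin 3)).biUnion fun i =>
        (({1, -1} : Finset ℝ)).biUnion fun e0 =>
        (UU F d).biUnion fun U => BT d e i U e0).card : ℝ) := by
        exact_mod_cast Finset.card_le_card (bad_sub hd (by omega))
    _ ≤ ∑ i : Fin 3, (((({1, -1} : Finset ℝ)).biUnion fun e0 =>
        (UU F d).biUnion fun U => BT d e i U e0).card : ℝ) := by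
        exact_mod_cast Finset.card_biUnion_le
    _ ≤ ∑ _i : Fin 3, 2 * (M * (3 * ((thr d - 1 : ℕ) : ℝ)) ^ 2) :=
        Finset.sum_le_sum fun i _ => h4 i
    _ = 6 * (M * (3 * ((thr d - 1 : ℕ) : ℝ)) ^ 2) := by
        rw [Finset.sum_const, Finset.card_univ, Fintype.card_fin, nsmul_eq_mul]
        push_cast
        ring

private theorem final_real {q x D T L : ℝ} (hq : 0 ≤ q) (hx : 1 ≤ x) (hD : 0 < D) (hT0 : 0 ≤ T)
    (hT : T ≤ x ^ 2) (hL : L ≤ 2 * x) (hL0 : 0 ≤ L)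
    (h : x ^ 8 * (324 * q ^ 2) ≤ D ^ (1 / 4 : ℝ)) :
    6 * (q ^ 2 * (3 * T * Real.sqrt (2 * (L * T) / D)) * (3 * T) ^ 2) ≤ D ^ (-(1 / 4) : ℝ) := by
  have h1 : Real.sqrt (2 * (L * T) / D) ≤ 2 * x ^ 2 * D ^ (-(1 / 2) : ℝ) := by
    have e1 : 2 * x ^ 2 * D ^ (-(1 / 2) : ℝ) = Real.sqrt ((2 * x ^ 2) ^ 2 / D) := by
      rw [Real.sqrt_div' _ hD.le, Real.sqrt_sq (by positivity), Real.sqrt_eq_rpow,
        Real.rpow_neg hD.le]
      rfl
    rw [e1]
    refine Real.sqrt_le_sqrt (div_le_div_of_nonneg_right ?_ hD.le)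
    have h2 : L * T ≤ 2 * x * x ^ 2 := mul_le_mul hL hT hT0 (by linarith)
    have h3 : x ^ 3 ≤ x ^ 4 := pow_le_pow_right₀ hx (by norm_num)
    nlinarith
  have hr : 0 ≤ D ^ (-(1 / 2) : ℝ) := Real.rpow_nonneg hD.le _
  have h4 : 3 * T * Real.sqrt (2 * (L * T) / D) ≤
      3 * x ^ 2 * (2 * x ^ 2 * D ^ (-(1 / 2) : ℝ)) := by
    refine mul_le_mul (by linarith) h1 (Real.sqrt_nonneg _) (by positivity)
  have h5 : (3 * T) ^ 2 ≤ (3 * x ^ 2) ^ 2 := pow_le_pow_left₀ (by linarith) (by linarith) 2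
  have h6 : q ^ 2 * (3 * T * Real.sqrt (2 * (L * T) / D)) * (3 * T) ^ 2 ≤
      q ^ 2 * (3 * x ^ 2 * (2 * x ^ 2 * D ^ (-(1 / 2) : ℝ))) * (3 * x ^ 2) ^ 2 := by
    refine mul_le_mul (mul_le_mul_of_nonneg_left h4 (by positivity)) h5 (by positivity)
      (by positivity)
  have h7 : 6 * (q ^ 2 * (3 * x ^ 2 * (2 * x ^ 2 * D ^ (-(1 / 2) : ℝ))) * (3 * x ^ 2) ^ 2) =
      x ^ 8 * (324 * q ^ 2) * D ^ (-(1 / 2) : ℝ) := by ring
  have h8 : D ^ (1 / 4 : ℝ) * D ^ (-(1 / 2) : ℝ) = D ^ (-(1 / 4) : ℝ) := by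
    rw [← Real.rpow_add hD]
    norm_num
  calc 6 * (q ^ 2 * (3 * T * Real.sqrt (2 * (L * T) / D)) * (3 * T) ^ 2)
      ≤ 6 * (q ^ 2 * (3 * x ^ 2 * (2 * x ^ 2 * D ^ (-(1 / 2) : ℝ))) * (3 * x ^ 2) ^ 2) := by
        linarith
    _ = x ^ 8 * (324 * q ^ 2) * D ^ (-(1 / 2) : ℝ) := h7
    _ ≤ D ^ (1 / 4 : ℝ) * D ^ (-(1 / 2) : ℝ) := mul_le_mul_of_nonneg_right h hr
    _ = D ^ (-(1 / 4) : ℝ) := h8

/-- the bound for the number of the bad triples -/
theorem bad_bound (h2 : (2 : F) ≠ 0) : SC.BadBound F := by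
  classical
  have hq : (0 : ℝ) < (Nat.card F : ℝ) := by exact_mod_cast (Nat.card_pos : 0 < Nat.card F)
  have t1 : ∀ᶠ d : ℕ in Filter.atTop, (2 : ℝ) ≤ Real.log d :=
    (Real.tendsto_log_atTop.comp tendsto_natCast_atTop_atTop).eventually_ge_atTop 2
  have t2 : ∀ᶠ d : ℕ in Filter.atTop, ‖Real.log (d : ℝ) ^ 3‖ ≤ 1 / 2 * ‖id (d : ℝ)‖ :=
    ((Real.isLittleO_pow_log_id_atTop (n := 3)).comp_tendsto
      tendsto_natCast_atTop_atTop).def (by norm_num)
  have t3 : ∀ᶠ d : ℕ in Filter.atTop, ‖Real.log (d : ℝ) ^ (8 : ℝ)‖ ≤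
      1 / (324 * (Nat.card F : ℝ) ^ 2) * ‖(d : ℝ) ^ (1 / 4 : ℝ)‖ :=
    ((isLittleO_log_rpow_rpow_atTop (8 : ℝ) (by norm_num : (0 : ℝ) < 1 / 4)).comp_tendsto
      tendsto_natCast_atTop_atTop).def (by positivity)
  obtain ⟨D, hD⟩ := Filter.eventually_atTop.1 (t1.and (t2.and t3))
  refine ⟨1 / 4, by norm_num, D, fun d hd hodd e _ => ?_⟩
  obtain ⟨g1, g2, g3⟩ := hD d hd
  have hd0 : (0 : ℝ) < d := by exact_mod_cast hodd.pos
  have hx0 : 0 ≤ Real.log d := by linarith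
  have hx1 : 1 ≤ Real.log d := by linarith
  have k1 : Real.log d ^ 2 ≤ (thr d : ℝ) := Nat.le_ceil _
  have k2 : (thr d : ℝ) < Real.log d ^ 2 + 1 := Nat.ceil_lt_add_one (by positivity)
  have k3 : (4 : ℝ) ≤ (thr d : ℝ) := by nlinarith
  have k4 : 4 ≤ thr d := by exact_mod_cast k3
  have k5 : ((thr d - 1 : ℕ) : ℝ) ≤ Real.log d ^ 2 := by
    rw [Nat.cast_sub (by omega)]
    push_cast
    linarith
  have k6 : LB d ≤ 2 * Real.log d := by
    unfold LB
    have : Real.log d ^ (3 / 4 : ℝ) ≤ Real.log d ^ (1 : ℝ) :=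
      Real.rpow_le_rpow_of_exponent_le hx1 (by norm_num)
    rw [Real.rpow_one] at this
    linarith
  have k7 : 0 ≤ LB d := by
    unfold LB
    positivity
  have k8 : LB d * ((thr d - 1 : ℕ) : ℝ) ≤ d := by
    have e1 : LB d * ((thr d - 1 : ℕ) : ℝ) ≤ 2 * Real.log d * Real.log d ^ 2 :=
      mul_le_mul k6 k5 (Nat.cast_nonneg _) (by linarith)
    rw [Real.norm_of_nonneg (by positivity), id, Real.norm_of_nonneg hd0.le] at g2
    nlinarith
  have k9 : Real.log d ^ 8 * (324 * (Nat.card F : ℝ) ^ 2) ≤ (d : ℝ) ^ (1 / 4 : ℝ) := by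
    have e0 : Real.log (d : ℝ) ^ (8 : ℝ) = Real.log d ^ 8 := by
      rw [← Real.rpow_natCast]
      norm_num
    rw [e0, Real.norm_of_nonneg (by positivity), Real.norm_of_nonneg (by positivity),
      one_div_mul_eq_div, le_div_iff₀ (by positivity)] at g3
    exact g3
  have k10 := bad_card (F := F) h2 hodd (by omega) k8 e
  refine k10.trans ?_
  have k11 := final_real hq.le hx1 hd0 (Nat.cast_nonneg _) k5 k6 k7 k9
  have hQ : 0 ≤ (Nat.card F : ℝ) ^ (2 * d) := by positivity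
  calc 6 * ((Nat.card F : ℝ) ^ (2 * d + 2) *
        (3 * ((thr d - 1 : ℕ) : ℝ) * Real.sqrt (2 * (LB d * ((thr d - 1 : ℕ) : ℝ)) / d)) *
        (3 * ((thr d - 1 : ℕ) : ℝ)) ^ 2)
      = 6 * ((Nat.card F : ℝ) ^ 2 *
        (3 * ((thr d - 1 : ℕ) : ℝ) * Real.sqrt (2 * (LB d * ((thr d - 1 : ℕ) : ℝ)) / d)) *
        (3 * ((thr d - 1 : ℕ) : ℝ)) ^ 2) * (Nat.card F : ℝ) ^ (2 * d) := by
        rw [pow_add]
        ring
    _ ≤ (d : ℝ) ^ (-(1 / 4) : ℝ) * (Nat.card F : ℝ) ^ (2 * d) :=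
        mul_le_mul_of_nonneg_right k11 hQ

end Pool.Agent.H3.SE
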