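import Pool.Agent.H3.SC.Defs
import Pool.Agent.H74.TL.Ap

set_option autoImplicit false

/-!
# [H3 SE BCH] A bad triple has a small character

`x ∈ RadX Y`, `x ≠ 0`, `x = a j` on the non-tiny primes of `Y j`, `a 0 + a 1 + a 2 = 0`.  Let `u j` be the set of the primes of `Y j` with `x ≠ a j`.
For a non-tiny prime `P` of `Y i` the equation of `RadX Y` is `∑_{R ∈ u (i + 1) ∪ u (i + 2)} lam R P = γ deg P` (`SB.tr_lam`, `SB.tr_two`).  If all `u j` are empty, then `x = a j` on the class `j`, `a 0 = a 1 = a 2` (`WX`, `d` odd), so `x = 0`.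
-/

namespace Pool.Agent.H3.SE

open Polynomial
open Pool.Agent.H94.PC
open Pool.Agent.H94.PS
open Pool.Agent.H74.ST (chi)
open Pool.Agent.H74.TL (LL)
open Pool.Agent.H3

variable {F : Type} [Field F] [Finite F] {d : ℕ} {Y : Fin 3 → F[X]}

open Classical in
/-- the primes of `Y j` where `x` differs from `a` -/
noncomputable def ux (Y : Fin 3 → F[X]) (x : SX Y → ZMod 2) (a : ZMod 2) (j : Fin 3) :
    Finset F[X] :=
  (Finset.univ.filter (fun R : {P // P ∈ pf (Y j)} => x ⟨j, R⟩ ≠ a)).map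
    (Function.Embedding.subtype _)

theorem mem_ux {x : SX Y → ZMod 2} {a : ZMod 2} {j : Fin 3} {P : F[X]} :
    P ∈ ux Y x a j ↔ ∃ h : P ∈ pf (Y j), x ⟨j, ⟨P, h⟩⟩ ≠ a := by
  classical
  unfold ux
  rw [Finset.mem_map]
  constructor
  · rintro ⟨Q, hQ, rfl⟩
    rw [Finset.mem_filter] at hQ
    exact ⟨Q.2, hQ.2⟩
  · rintro ⟨h, hv⟩
    exact ⟨⟨P, h⟩, Finset.mem_filter.mpr ⟨Finset.mem_univ _, hv⟩, rfl⟩

private theorem two_ite (u a g : ZMod 2) : (if u ≠ a then g else 0) = (u + a) * g := by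
  revert u a g
  decide

theorem sum_ux (x : SX Y → ZMod 2) (a : ZMod 2) (j : Fin 3) (g : F[X] → ZMod 2) :
    ∑ P ∈ ux Y x a j, g P = ∑ R : {P // P ∈ pf (Y j)}, (x ⟨j, R⟩ + a) * g R.1 := by
  classical
  unfold ux
  rw [Finset.sum_map, Finset.sum_filter]
  refine Finset.sum_congr rfl fun R _ => ?_
  rw [← two_ite]
  rfl

private theorem sum3 (f : Fin 3 → ZMod 2) (i : Fin 3) :
    ∑ j, f j = f i + f (i + 1) + f (i + 2) := by
  have e : ∀ f : Fin 3 → ZMod 2, ∀ i : Fin 3, f 0 + f 1 + f 2 = f i + f (i + 1) + f (i + 2) := by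
    intro f i
    fin_cases i
    · rfl
    · show f 0 + f 1 + f 2 = f 1 + f 2 + f 0
      ring
    · show f 0 + f 1 + f 2 = f 2 + f 0 + f 1
      ring
  rw [Fin.sum_univ_three]
  exact e f i

private theorem row (Y : Fin 3 → F[X]) (x : SX Y → ZMod 2) (i : Fin 3)
    (P : {P // P ∈ pf (Y i)}) : ∑ r, mx Y ⟨i, P⟩ r * x r =
      lam (Y (i + 1)) P.1 * x ⟨i, P⟩ +
      ∑ R : {P // P ∈ pf (Y (i + 1))}, lam R.1 P.1 * x ⟨i + 1, R⟩ +
      ∑ R : {P // P ∈ pf (Y (i + 2))}, lam R.1 P.1 * x ⟨i + 2, R⟩ := by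
  have n1 : i ≠ i + 1 := by fin_cases i <;> decide
  have n2 : i ≠ i + 2 := by fin_cases i <;> decide
  have hne : ∀ j : Fin 3, i ≠ j → ∀ R : {P // P ∈ pf (Y j)}, mx Y ⟨i, P⟩ ⟨j, R⟩ = lam R.1 P.1 := by
    intro j hij R
    unfold mx
    rw [if_neg fun h => hij (congrArg Sigma.fst h), if_neg hij]
  rw [Fintype.sum_sigma, sum3 _ i]
  congr 1
  · congr 1
    · rw [Finset.sum_eq_single P]
      · have h1 : mx Y ⟨i, P⟩ ⟨i, P⟩ = lam (Y (i + 1)) P.1 := by
          unfold mx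
          rw [if_pos rfl]
        rw [h1]
      · intro R _ hR
        have h1 : mx Y ⟨i, P⟩ ⟨i, R⟩ = 0 := by
          unfold mx
          rw [if_neg, if_pos rfl]
          intro h
          rw [Sigma.mk.injEq] at h
          exact hR (eq_of_heq h.2).symm
        rw [h1, zero_mul]
      · intro h
        exact absurd (Finset.mem_univ P) h
    · exact Finset.sum_congr rfl fun R _ => by rw [hne _ n1]
  · exact Finset.sum_congr rfl fun R _ => by rw [hne _ n2]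

private theorem lam_one'' {P : F[X]} (hP : P.Monic) : lam 1 P = 0 := by
  apply sg_inj
  rw [← js_eq_sg hP isCoprime_one_left, js_one_left hP, sg_zero]

private theorem lam_LL {P : F[X]} (hP : P.Monic) (s : Finset F[X])
    (hs : ∀ R ∈ s, IsCoprime R P) : lam (LL s) P = ∑ R ∈ s, lam R P := by
  classical
  unfold LL
  induction s using Finset.induction_on with
  | empty => rw [Finset.prod_empty, Finset.sum_empty, lam_one'' hP]
  | insert a s ha ih =>
    have h1 : ∀ R ∈ s, IsCoprime R P := fun R hR => hs R (Finset.mem_insert_of_mem hR)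
    rw [Finset.prod_insert ha, Finset.sum_insert ha,
      lam_mul_left hP (hs a (Finset.mem_insert_self a s)) (IsCoprime.prod_left h1), ih h1]

private theorem blk (h : Tr d Y) (x : SX Y → ZMod 2) (a : ZMod 2) {i j : Fin 3} (hij : i ≠ j)
    (P : {P // P ∈ pf (Y i)}) : ∑ R : {P // P ∈ pf (Y j)}, lam R.1 P.1 * x ⟨j, R⟩ =
      a * (lam (Y j) P.1 + bt (Y j).leadingCoeff * (P.1.natDegree : ZMod 2)) +
      ∑ R ∈ ux Y x a j, lam R P.1 := by
  have h4 : (2 : ZMod 2) = 0 := rfl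
  rw [SB.tr_lam h hij P.2, sum_ux, ← Finset.sum_coe_sort (pf (Y j))]
  have e1 : ∑ R : {P // P ∈ pf (Y j)}, lam R.1 P.1 * x ⟨j, R⟩ =
      a * ∑ R : {P // P ∈ pf (Y j)}, lam R.1 P.1 +
      ∑ R : {P // P ∈ pf (Y j)}, (x ⟨j, R⟩ + a) * lam R.1 P.1 := by
    rw [Finset.mul_sum, ← Finset.sum_add_distrib]
    refine Finset.sum_congr rfl fun R _ => ?_
    linear_combination -(a * lam R.1 P.1) * h4
  rw [e1]
  linear_combination -(a * (bt (Y j).leadingCoeff * (P.1.natDegree : ZMod 2))) * h4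

theorem bad_char (h : Tr d Y) (hd : Odd d) (hB : SB.Bad d Y) :
    ∃ i : Fin 3, ∃ U : Finset F[X], U.Nonempty ∧
      (∀ P ∈ U, P ∈ pf (Y (i + 1)) ∨ P ∈ pf (Y (i + 2))) ∧ (∀ P ∈ U, P.natDegree < thr d) ∧
      ∃ e0 : ℝ, (e0 = 1 ∨ e0 = -1) ∧
        ∀ P ∈ pf (Y i), thr d ≤ P.natDegree → chi (LL U) e0 P = 1 := by
  classical
  obtain ⟨x, hx, hx0, a, ha, hxa⟩ := hB
  have h4 : (2 : ZMod 2) = 0 := rfl
  have hne : ∃ j, (ux Y x (a j) j).Nonempty := by
    by_contra hcon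
    push_neg at hcon
    have h1 : ∀ j, ∀ R : {P // P ∈ pf (Y j)}, x ⟨j, R⟩ = a j := by
      intro j R
      by_contra hR
      have : R.1 ∈ ux Y x (a j) j := mem_ux.2 ⟨R.2, hR⟩
      have h2 := hcon j
      rw [h2] at this
      exact absurd this (Finset.notMem_empty _)
    have hd1 : (d : ZMod 2) = 1 := by
      rw [ZMod.natCast_eq_one_iff_odd]
      exact hd
    have h2 : ∀ j, dgp Y x j = a j := by
      intro j
      unfold dgp
      have e1 : ∀ R : {P // P ∈ pf (Y j)}, x ⟨j, R⟩ * (R.1.natDegree : ZMod 2) =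
          a j * (R.1.natDegree : ZMod 2) := fun R => by rw [h1 j R]
      simp only [e1]
      rw [← Finset.mul_sum, Finset.sum_coe_sort (pf (Y j)) (fun R => (R.natDegree : ZMod 2)),
        ← Nat.cast_sum, SB.tr_deg h j, hd1, mul_one]
    have h3 : ∀ j, a j = a 0 := by
      intro j
      rw [← h2 j, ← h2 0]
      exact hx.1 j
    have h5 : a 0 = 0 := by
      have e := ha
      rw [h3 1, h3 2] at e
      linear_combination e - a 0 * h4
    apply hx0
    funext p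
    obtain ⟨j, R⟩ := p
    rw [h1 j R, h3 j, h5]
    rfl
  obtain ⟨j, hj⟩ := hne
  obtain ⟨i, rfl⟩ : ∃ i : Fin 3, i + 1 = j := ⟨j + 2, by fin_cases j <;> rfl⟩
  have n1 : ∀ i : Fin 3, i ≠ i + 1 := by decide
  have n2 : ∀ i : Fin 3, i ≠ i + 2 := by decide
  have n3 : ∀ i : Fin 3, i + 1 ≠ i + 2 := by decide
  refine ⟨i, ux Y x (a (i + 1)) (i + 1) ∪ ux Y x (a (i + 2)) (i + 2), hj.mono
    Finset.subset_union_left, ?_, ?_, ?_⟩
  · intro P hP
    rcases Finset.mem_union.1 hP with hP | hP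
    · exact Or.inl (mem_ux.1 hP).1
    · exact Or.inr (mem_ux.1 hP).1
  · intro P hP
    by_contra hlt
    rw [not_lt] at hlt
    rcases Finset.mem_union.1 hP with hP | hP
    · obtain ⟨g1, g2⟩ := mem_ux.1 hP
      exact g2 (hxa _ ⟨P, g1⟩ hlt)
    · obtain ⟨g1, g2⟩ := mem_ux.1 hP
      exact g2 (hxa _ ⟨P, g1⟩ hlt)
  · set γ : ZMod 2 := a (i + 1) * bt (Y (i + 1)).leadingCoeff +
      a (i + 2) * (bt (Y (i + 2)).leadingCoeff + bt (-1 : F)) with hγ
    refine ⟨sg γ, sg_cases γ, ?_⟩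
    intro P hP ht
    obtain ⟨hm, _, _⟩ := mem_pf' hP
    have hdis : Disjoint (ux Y x (a (i + 1)) (i + 1)) (ux Y x (a (i + 2)) (i + 2)) := by
      rw [Finset.disjoint_left]
      intro R hR hR'
      obtain ⟨g1, _⟩ := mem_ux.1 hR
      obtain ⟨g2, _⟩ := mem_ux.1 hR'
      have g3 := (SB.tr_cop h (n3 i)).isUnit_of_dvd' (mem_pf' g1).2.2 (mem_pf' g2).2.2
      exact (mem_pf' g1).2.1.not_isUnit g3
    have hcop : ∀ R ∈ ux Y x (a (i + 1)) (i + 1) ∪ ux Y x (a (i + 2)) (i + 2),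
        IsCoprime R P := by
      intro R hR
      rcases Finset.mem_union.1 hR with hR | hR
      · exact (SB.tr_cpr h (n1 i) hP).of_isCoprime_of_dvd_left (mem_pf' (mem_ux.1 hR).1).2.2
      · exact (SB.tr_cpr h (n2 i) hP).of_isCoprime_of_dvd_left (mem_pf' (mem_ux.1 hR).1).2.2
    have h1 := hx.2 ⟨i, ⟨P, hP⟩⟩
    rw [row, blk h x (a (i + 1)) (n1 i) ⟨P, hP⟩, blk h x (a (i + 2)) (n2 i) ⟨P, hP⟩,
      hxa i ⟨P, hP⟩ ht, SB.tr_two h hP] at h1
    have h2 : lam (LL (ux Y x (a (i + 1)) (i + 1) ∪ ux Y x (a (i + 2)) (i + 2))) P =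
        γ * (P.natDegree : ZMod 2) := by
      rw [lam_LL hm _ hcop, Finset.sum_union hdis]
      have ha' : a i + a (i + 1) + a (i + 2) = 0 := by
        rw [← sum3 a i, Fin.sum_univ_three]
        exact ha
      linear_combination h1 - lam (Y (i + 1)) P * ha' - (γ * (P.natDegree : ZMod 2)) * h4
    have h3 : IsCoprime (LL (ux Y x (a (i + 1)) (i + 1) ∪ ux Y x (a (i + 2)) (i + 2))) P := by
      unfold LL
      exact IsCoprime.prod_left hcop
    unfold chi
    rw [js_eq_sg hm h3, h2, sg_mul_natCast, ← mul_pow, sg_mul_self, one_pow]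

end Pool.Agent.H3.SE
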