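import Pool.Agent.H3.SE.BCH
import Pool.Agent.H74.ST.Typ

set_option autoImplicit false

/-!
# [H3 SE BCN] Number of the triples with a given small character
-/

namespace Pool.Agent.H3.SE

open Polynomial
open Pool.Agent.H94.PC
open Pool.Agent.H94.PS
open Pool.Agent.H74.ST
open Pool.Agent.H74.TL
open Pool.Agent.H3

variable {F : Type} [Field F] [Finite F] {d e : ℕ}

open Classical in
theorem card_ys {U : Finset F[X]} (hU : IsP U) (Z : F[X]) {n : ℕ} (hn : (LL U).natDegree ≤ n) :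
    (((Lt F n).filter fun y => ∀ P ∈ U, P ∣ y ∨ P ∣ Z + y).card : ℝ) ≤
      2 ^ U.card * ((Nat.card F : ℝ) ^ n * iv (LL U)) := by
  have h1 : ((Lt F n).filter fun y => ∀ P ∈ U, P ∣ y ∨ P ∣ Z + y) ⊆
      U.powerset.biUnion fun V => (Lt F n).filter fun y =>
        (∀ P ∈ V, P ∣ y) ∧ ∀ P ∈ U \ V, P ∣ Z + y := by
    intro y hy
    rw [Finset.mem_filter] at hy
    rw [Finset.mem_biUnion]
    refine ⟨U.filter fun P => P ∣ y, Finset.mem_powerset.2 (Finset.filter_subset _ _),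
      Finset.mem_filter.2 ⟨hy.1, fun P hP => (Finset.mem_filter.1 hP).2, fun P hP => ?_⟩⟩
    rw [Finset.mem_sdiff, Finset.mem_filter] at hP
    rcases hy.2 P hP.1 with h | h
    · exact absurd ⟨hP.1, h⟩ hP.2
    · exact h
  have h2 : ∀ V ∈ U.powerset, (((Lt F n).filter fun y =>
      (∀ P ∈ V, P ∣ y) ∧ ∀ P ∈ U \ V, P ∣ Z + y).card : ℝ) ≤
      (Nat.card F : ℝ) ^ n * iv (LL U) := by
    intro V hV
    have hs : Sep (LL U) fun y => (∀ P ∈ V, P ∣ y) ∧ ∀ P ∈ U \ V, P ∣ Z + y := by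
      intro y y' hy hy'
      rw [LL_dvd hU]
      intro P hP
      by_cases hPV : P ∈ V
      · exact dvd_sub (hy.1 P hPV) (hy'.1 P hPV)
      · have hPU : P ∈ U \ V := Finset.mem_sdiff.2 ⟨hP, hPV⟩
        have h3 := dvd_sub (hy.2 P hPU) (hy'.2 P hPU)
        rwa [add_sub_add_left_eq_sub] at h3
    convert card_sep_Lt (LL_monic hU) hn hs
  calc (((Lt F n).filter fun y => ∀ P ∈ U, P ∣ y ∨ P ∣ Z + y).card : ℝ)
      ≤ ((U.powerset.biUnion fun V => (Lt F n).filter fun y =>
        (∀ P ∈ V, P ∣ y) ∧ ∀ P ∈ U \ V, P ∣ Z + y).card : ℝ) := by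
        exact_mod_cast Finset.card_le_card h1
    _ ≤ ∑ V ∈ U.powerset, (((Lt F n).filter fun y =>
        (∀ P ∈ V, P ∣ y) ∧ ∀ P ∈ U \ V, P ∣ Z + y).card : ℝ) := by
        exact_mod_cast Finset.card_biUnion_le
    _ ≤ ∑ V ∈ U.powerset, (Nat.card F : ℝ) ^ n * iv (LL U) := Finset.sum_le_sum h2
    _ = 2 ^ U.card * ((Nat.card F : ℝ) ^ n * iv (LL U)) := by
        rw [Finset.sum_const, Finset.card_powerset, nsmul_eq_mul]
        push_cast
        rfl

open Classical in
/-- the triples with the character of `U` -/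
noncomputable def BT (d e : ℕ) (i : Fin 3) (U : Finset F[X]) (e0 : ℝ) :
    Finset (Fin 3 → F[X]) :=
  (Fam F d e).filter fun Y => (∀ P ∈ U, P ∈ pf (Y (i + 1)) ∨ P ∈ pf (Y (i + 2))) ∧
    ∀ P ∈ pf (Y i), thr d ≤ P.natDegree → chi (LL U) e0 P = 1

private theorem tr_two_eq {Y Y' : Fin 3 → F[X]} (h : Tr d Y) (h' : Tr d Y') (i : Fin 3)
    (h1 : Y i = Y' i) (h2 : Y (i + 1) = Y' (i + 1)) : Y = Y' := by
  have hs := h.sum
  have hs' := h'.sum
  have h4 : Y (i + 2) = Y' (i + 2) := by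
    fin_cases i
    · have e : Y 2 = -(Y 0 + Y 1) := by linear_combination hs
      have e' : Y' 2 = -(Y' 0 + Y' 1) := by linear_combination hs'
      show Y 2 = Y' 2
      rw [e, e']
      have a1 : Y 0 = Y' 0 := h1
      have a2 : Y 1 = Y' 1 := h2
      rw [a1, a2]
    · have e : Y 0 = -(Y 1 + Y 2) := by linear_combination hs
      have e' : Y' 0 = -(Y' 1 + Y' 2) := by linear_combination hs'
      show Y 0 = Y' 0
      rw [e, e']
      have a1 : Y 1 = Y' 1 := h1
      have a2 : Y 2 = Y' 2 := h2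
      rw [a1, a2]
    · have e : Y 1 = -(Y 2 + Y 0) := by linear_combination hs
      have e' : Y' 1 = -(Y' 2 + Y' 0) := by linear_combination hs'
      show Y 1 = Y' 1
      rw [e, e']
      have a1 : Y 2 = Y' 2 := h1
      have a2 : Y 0 = Y' 0 := h2
      rw [a1, a2]
  funext j
  fin_cases i <;> fin_cases j <;> first | exact h1 | exact h2 | exact h4

private theorem tr_sqf' {Y : Fin 3 → F[X]} (h : Tr d Y) (i : Fin 3) : Squarefree (Y i) := by
  have h1 := squarefree_mul_iff.1 h.sqf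
  have h2 := squarefree_mul_iff.1 h1.2.1
  fin_cases i
  · exact h2.2.1
  · exact h2.2.2
  · exact h1.2.2

private theorem tr_sum_eq {Y : Fin 3 → F[X]} (h : Tr d Y) (i : Fin 3) :
    Y i + Y (i + 1) = - Y (i + 2) := by
  have hs := h.sum
  fin_cases i
  · show Y 0 + Y 1 = - Y 2
    linear_combination hs
  · show Y 1 + Y 2 = - Y 0
    linear_combination hs
  · show Y 2 + Y 0 = - Y 1
    linear_combination hs

theorem card_BT {U : Finset F[X]} (hU : IsP U) (hn : (LL U).natDegree ≤ d + 1)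
    (ht : 1 ≤ thr d) (i : Fin 3) (e0 : ℝ) : ((BT (F := F) d e i U e0).card : ℝ) ≤
      Nat.card F * (Gn (LL U) e0 (thr d - 1) d).card *
        (2 ^ U.card * ((Nat.card F : ℝ) ^ (d + 1) * iv (LL U))) := by
  classical
  have : Fintype F := Fintype.ofFinite F
  set ZZ : Finset F[X] := ((Finset.univ : Finset F) ×ˢ Gn (LL U) e0 (thr d - 1) d).image
    (fun p => C p.1 * p.2) with hZZ
  set SS : Finset ((_ : F[X]) × F[X]) := ZZ.sigma fun Z =>
    (Lt F (d + 1)).filter fun y => ∀ P ∈ U, P ∣ y ∨ P ∣ Z + y with hSS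
  have h1 : (BT (F := F) d e i U e0).card ≤ SS.card := by
    refine Finset.card_le_card_of_injOn
      (fun Y => (⟨Y i, Y (i + 1)⟩ : (_ : F[X]) × F[X])) ?_ ?_
    · intro Y hY
      have hY' := Finset.mem_filter.1 (Finset.mem_coe.1 hY)
      obtain ⟨hF, hU1, hch⟩ := hY'
      have hT := (mem_Fam.1 hF).1
      obtain ⟨A, hA1, hA2, hA3⟩ := exists_monic_mul (SB.tr_ne hT i)
      have hl : (Y i).leadingCoeff ≠ 0 := leadingCoeff_ne_zero.2 (SB.tr_ne hT i)
      rw [Finset.mem_coe, hSS, Finset.mem_sigma]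
      refine ⟨?_, Finset.mem_filter.2 ⟨?_, ?_⟩⟩
      · rw [hZZ, Finset.mem_image]
        refine ⟨((Y i).leadingCoeff, A), Finset.mem_product.2 ⟨Finset.mem_univ _, ?_⟩, hA3.symm⟩
        unfold Gn
        refine Finset.mem_filter.2 ⟨mem_Sq.2 ⟨hA1, ?_, ?_⟩, ?_⟩
        · exact hA2.trans (hT.deg i)
        · have hAd : A ∣ Y i := by
            rw [hA3]
            exact dvd_mul_left _ _
          exact (tr_sqf' hT i).squarefree_of_dvd hAd
        · intro P hP1 hP2 hP3 hP4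
          refine hch P ?_ (by omega)
          rw [hA3, pf_C_mul hl, mem_pf hA1.ne_zero]
          exact ⟨hP1, hP2, hP3⟩
      · rw [mem_Lt]
        refine lt_of_le_of_lt degree_le_natDegree ?_
        rw [hT.deg]
        exact_mod_cast Nat.lt_succ_self d
      · intro P hP
        rcases hU1 P hP with h | h
        · exact Or.inl (mem_pf' h).2.2
        · refine Or.inr ?_
          show P ∣ Y i + Y (i + 1)
          rw [tr_sum_eq hT i]
          exact (dvd_neg).2 (mem_pf' h).2.2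
    · intro Y hY Y' hY' heq
      have hT := (mem_Fam.1 (Finset.mem_filter.1 (Finset.mem_coe.1 hY)).1).1
      have hT' := (mem_Fam.1 (Finset.mem_filter.1 (Finset.mem_coe.1 hY')).1).1
      rw [Sigma.mk.injEq] at heq
      exact tr_two_eq hT hT' i heq.1 (eq_of_heq heq.2)
  have h2 : (SS.card : ℝ) ≤ ZZ.card * (2 ^ U.card * ((Nat.card F : ℝ) ^ (d + 1) *
      iv (LL U))) := by
    rw [hSS, Finset.card_sigma, ← nsmul_eq_mul, ← Finset.sum_const]
    push_cast
    exact Finset.sum_le_sum fun Z _ => card_ys hU Z hn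
  have h3 : (ZZ.card : ℝ) ≤ Nat.card F * (Gn (LL U) e0 (thr d - 1) d).card := by
    have h4 : ZZ.card ≤ Nat.card F * (Gn (LL U) e0 (thr d - 1) d).card := by
      rw [hZZ]
      refine Finset.card_image_le.trans ?_
      rw [Finset.card_product, Finset.card_univ, Nat.card_eq_fintype_card]
    exact_mod_cast h4
  have h5 : ((BT (F := F) d e i U e0).card : ℝ) ≤ SS.card := by exact_mod_cast h1
  refine h5.trans (h2.trans (mul_le_mul_of_nonneg_right h3 ?_))
  have := iv_nonneg (LL U)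
  positivity

end Pool.Agent.H3.SE
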